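import Pool.Agent.N589.LL.Tasks

/-!
# LL/06: residue fields at `0` and `∞`, constants, degree
-/

open scoped WithZero Polynomial MatrixGroups Topology
open IsDedekindDomain RestrictedProduct

noncomputable section

namespace N589LL

namespace TGlob

lemma dens (v : Place) (x : Kv v) : ∃ y : K, val v (x - incl v y) < 1 := by
  have hs : {z : Kv v | val v (z - x) < 1} ∈ 𝓝 x := by
    rw [Valued.mem_nhds]
    refine ⟨1, fun y hy => ?_⟩
    have h1 : (Valued.v : Valuation (Kv v) ℤᵐ⁰).restrict (y - x) < 1 := hy
    rw [Valuation.restrict_lt_one_iff] at h1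
    exact h1
  obtain ⟨y, hy⟩ := (UniformSpace.Completion.denseRange_coe (α := WithVal (pv v))).mem_nhds hs
  refine ⟨(WithVal.equiv (pv v)) y, ?_⟩
  have e : incl v ((WithVal.equiv (pv v)) y) = (y : Kv v) := rfl
  rw [e, Valuation.map_sub_swap]
  exact hy

/-- Reduction of a residue field statement from the completion to `K`. -/
lemma red (v : Place) (h : ∀ y : K, pv v y ≤ 1 → pv v y < 1 ∨ pv v (y - 1) < 1)
    (x : Kv v) (hx : val v x ≤ 1) : val v x < 1 ∨ val v (x - 1) < 1 := by
  obtain ⟨y, hy⟩ := dens v x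
  have h1 : pv v y ≤ 1 := by
    rw [← val_incl]
    have e : incl v y = x - (x - incl v y) := by ring
    rw [e]
    exact (Valuation.map_sub _ _ _).trans (max_le hx hy.le)
  rcases h y h1 with h2 | h2
  · left
    rw [← val_incl] at h2
    have e : x = (x - incl v y) + incl v y := by ring
    rw [e]
    exact lt_of_le_of_lt (Valuation.map_add _ _ _) (max_lt hy h2)
  · right
    rw [← val_incl, map_sub, map_one] at h2
    have e : x - 1 = (x - incl v y) + (incl v y - 1) := by ring
    rw [e]
    exact lt_of_le_of_lt (Valuation.map_add _ _ _) (max_lt hy h2)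

lemma zmod2 (c : ZMod 2) : c = 0 ∨ c = 1 := by
  revert c; decide

lemma pv_none_poly {p : A} (hp : p ≠ 0) :
    pv none (algebraMap A K p) = WithZero.exp (p.natDegree : ℤ) := by
  classical
  have := RatFunc.inftyValuation.polynomial (F := ZMod 2) hp
  rw [← this]
  simp only [pv]
  rw [RatFunc.inftyValuation_apply]

lemma none_res (y : K) (hy : pv none y ≤ 1) : pv none y < 1 ∨ pv none (y - 1) < 1 := by
  classical
  by_cases hy0 : y = 0
  · left; rw [hy0, map_zero]; exact zero_lt_one
  have hd : y.denom ≠ 0 := y.denom_ne_zero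
  have hn : y.num ≠ 0 := RatFunc.num_ne_zero hy0
  have hdK : (algebraMap A K y.denom) ≠ 0 := by
    rw [Ne, map_eq_zero_iff _ (RatFunc.algebraMap_injective _)]; exact hd
  have ey : y = algebraMap A K y.num / algebraMap A K y.denom := (RatFunc.num_div_denom y).symm
  have h1 : pv none y = WithZero.exp ((y.num.natDegree : ℤ) - y.denom.natDegree) := by
    conv_lhs => rw [ey]
    rw [map_div₀, pv_none_poly hn, pv_none_poly hd, ← WithZero.exp_sub]
  rw [h1, ← WithZero.exp_zero, WithZero.exp_le_exp] at hy
  rcases lt_or_eq_of_le hy with h2 | h2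
  · left
    rw [h1, ← WithZero.exp_zero, WithZero.exp_lt_exp]; exact h2
  · right
    have e : y - 1 = algebraMap A K (y.num - y.denom) / algebraMap A K y.denom := by
      rw [map_sub, sub_div, div_self hdK, ← ey]
    rw [e]
    by_cases h0 : y.num - y.denom = 0
    · rw [h0, map_zero, zero_div, map_zero]; exact zero_lt_one
    rw [map_div₀, pv_none_poly h0, pv_none_poly hd, ← WithZero.exp_sub, ← WithZero.exp_zero,
      WithZero.exp_lt_exp]
    have hdeg : y.num.natDegree = y.denom.natDegree := by omega
    have hlc : y.num.leadingCoeff = y.denom.leadingCoeff := by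
      have a1 : y.num.leadingCoeff ≠ 0 := Polynomial.leadingCoeff_ne_zero.2 hn
      have a2 : y.denom.leadingCoeff ≠ 0 := Polynomial.leadingCoeff_ne_zero.2 hd
      rw [(zmod2 _).resolve_left a1, (zmod2 _).resolve_left a2]
    have hlt : (y.num - y.denom).degree < y.num.degree :=
      Polynomial.degree_sub_lt_left (by
        rw [Polynomial.degree_eq_natDegree hn, Polynomial.degree_eq_natDegree hd, hdeg]) hn hlc
    have := Polynomial.natDegree_lt_natDegree h0 hlt
    omega

lemma mem_p0 (p : A) : p ∈ p0.asIdeal ↔ p.coeff 0 = 0 := by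
  change p ∈ Ideal.span {Polynomial.X} ↔ _
  rw [Ideal.mem_span_singleton, Polynomial.X_dvd_iff]

lemma p0_res (y : K) (hy : pv (some p0) y ≤ 1) : pv (some p0) y < 1 ∨ pv (some p0) (y - 1) < 1 := by
  have hd : y.denom ≠ 0 := y.denom_ne_zero
  have hdK : (algebraMap A K y.denom) ≠ 0 := by
    rw [Ne, map_eq_zero_iff _ (RatFunc.algebraMap_injective _)]; exact hd
  have ey : y = algebraMap A K y.num / algebraMap A K y.denom := (RatFunc.num_div_denom y).symm
  change p0.valuation K y ≤ 1 at hy
  change p0.valuation K y < 1 ∨ p0.valuation K (y - 1) < 1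
  have hcop : IsCoprime y.num y.denom := RatFunc.isCoprime_num_denom y
  have hdn : y.denom ∉ p0.asIdeal := by
    intro hmem
    have hnn : y.num ∉ p0.asIdeal := by
      intro hmem2
      obtain ⟨a, b, hab⟩ := hcop
      have : (1 : A) ∈ p0.asIdeal := by
        rw [← hab]
        exact add_mem (Ideal.mul_mem_left _ _ hmem2) (Ideal.mul_mem_left _ _ hmem)
      exact p0.isPrime.ne_top ((Ideal.eq_top_iff_one _).2 this)
    have e1 : p0.valuation K (algebraMap A K y.num) = 1 :=
      (HeightOneSpectrum.valuation_eq_one_iff_notMem _).2 hnn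
    have e2 : p0.valuation K (algebraMap A K y.denom) < 1 :=
      (p0.valuation_lt_one_iff_mem (K := K) _).2 hmem
    rw [ey, map_div₀, e1, one_div] at hy
    have hpos : 0 < p0.valuation K (algebraMap A K y.denom) :=
      zero_lt_iff.2 ((Valuation.ne_zero_iff _).2 hdK)
    have := (one_lt_inv₀ hpos).2 e2
    exact absurd hy (not_le.2 this)
  have e2 : p0.valuation K (algebraMap A K y.denom) = 1 :=
    (HeightOneSpectrum.valuation_eq_one_iff_notMem _).2 hdn
  by_cases hn : y.num ∈ p0.asIdeal
  · left
    conv_lhs => rw [ey]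
    rw [map_div₀, e2, div_one]
    exact (p0.valuation_lt_one_iff_mem (K := K) _).2 hn
  · right
    have e : y - 1 = algebraMap A K (y.num - y.denom) / algebraMap A K y.denom := by
      rw [map_sub, sub_div, div_self hdK, ← ey]
    rw [e, map_div₀, e2, div_one]
    refine (p0.valuation_lt_one_iff_mem (K := K) _).2 ?_
    rw [mem_p0] at hn hdn ⊢
    rw [Polynomial.coeff_sub, (zmod2 _).resolve_left hn, (zmod2 _).resolve_left hdn, sub_self]

lemma const_of_le (x : K) (h : ∀ v, pv v x ≤ 1) : x = 0 ∨ x = 1 := by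
  obtain ⟨p, hp⟩ := HeightOneSpectrum.mem_integers_of_valuation_le_one (R := A) K x
    (fun v => h (some v))
  by_cases hp0 : p = 0
  · left; rw [← hp, hp0, map_zero]
  · right
    have h1 := h none
    rw [← hp, pv_none_poly hp0, ← WithZero.exp_zero, WithZero.exp_le_exp] at h1
    have h2 : p.natDegree = 0 := by omega
    obtain ⟨c, hc⟩ := Polynomial.natDegree_eq_zero.1 h2
    have hc0 : c ≠ 0 := by
      rintro rfl; apply hp0; rw [← hc, Polynomial.C_0]
    rw [← hp, ← hc, (zmod2 c).resolve_left hc0, Polynomial.C_1, map_one]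

end TGlob

open TGlob in
theorem TaskGlob_proof : TaskGlob := by
  classical
  refine ⟨red none none_res, red (some p0) p0_res, const_of_le, ?_⟩
  intro x hx hv
  -- the valuation of `x` at `p0`
  have hX : ∀ v : HeightOneSpectrum A, v ≠ p0 → v.valuation K (RatFunc.X : K) = 1 := by
    intro v hvp
    have e : (RatFunc.X : K) = algebraMap A K Polynomial.X := (RatFunc.algebraMap_X).symm
    rw [e]
    refine (HeightOneSpectrum.valuation_eq_one_iff_notMem _).2 ?_
    intro hmem
    apply hvp
    have hle : p0.asIdeal ≤ v.asIdeal := by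
      change Ideal.span {Polynomial.X} ≤ _
      rw [Ideal.span_singleton_le_iff_mem]; exact hmem
    have hmax : p0.asIdeal.IsMaximal := p0.isMaximal
    have := hmax.eq_of_le v.isPrime.ne_top hle
    exact HeightOneSpectrum.ext this.symm
  have hX0 : p0.valuation K (RatFunc.X : K) = WithZero.exp (-1 : ℤ) := by
    have e : (RatFunc.X : K) = algebraMap A K Polynomial.X := (RatFunc.algebraMap_X).symm
    rw [e, HeightOneSpectrum.valuation_of_algebraMap]
    exact p0.intValuation_singleton Polynomial.X_ne_zero rfl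
  have hXne : (RatFunc.X : K) ≠ 0 := RatFunc.X_ne_zero
  have hxv : p0.valuation K x ≠ 0 := (Valuation.ne_zero_iff _).2 hx
  obtain ⟨k, hk⟩ : ∃ k : ℤ, p0.valuation K x = WithZero.exp (-k) := by
    refine ⟨-(WithZero.log (p0.valuation K x)), ?_⟩
    rw [neg_neg, WithZero.exp_log hxv]
  set y : K := x * RatFunc.X ^ (-k) with hy
  have hyv : ∀ v : HeightOneSpectrum A, v.valuation K y = 1 := by
    intro v
    by_cases hvp : v = p0
    · subst hvp
      rw [hy, map_mul, map_zpow₀, hk, hX0, ← WithZero.exp_zsmul, ← WithZero.exp_add,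
        ← WithZero.exp_zero]
      congr 1
      simp
    · have h1 : v.valuation K x = 1 := hv (some v) (by simpa using hvp)
      rw [hy, map_mul, map_zpow₀, h1, hX v hvp, one_zpow, one_mul]
  obtain ⟨p, hp⟩ := HeightOneSpectrum.mem_integers_of_valuation_le_one (R := A) K y
    (fun v => (hyv v).le)
  obtain ⟨q, hq⟩ := HeightOneSpectrum.mem_integers_of_valuation_le_one (R := A) K y⁻¹
    (fun v => by rw [map_inv₀, hyv v, inv_one])
  have hy0 : y ≠ 0 := mul_ne_zero hx (zpow_ne_zero _ hXne)
  have hpq : p * q = 1 := by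
    apply RatFunc.algebraMap_injective (ZMod 2)
    rw [map_mul, map_one]
    change algebraMap A K p * algebraMap A K q = 1
    rw [hp, hq, mul_inv_cancel₀ hy0]
  have hpu : IsUnit p := IsUnit.of_mul_eq_one _ hpq
  obtain ⟨c, hc, hcp⟩ := Polynomial.isUnit_iff.1 hpu
  have hc1 : c = 1 := (zmod2 c).resolve_left hc.ne_zero
  have hy1 : y = 1 := by rw [← hp, ← hcp, hc1, Polynomial.C_1, map_one]
  have hxX : x = RatFunc.X ^ k := by
    have : x = y * RatFunc.X ^ k := by
      rw [hy, mul_assoc, ← zpow_add₀ hXne]; simp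
    rw [this, hy1, one_mul]
  have hinf : pv none x = 1 := hv none (by simp)
  have h2 : pv none x = WithZero.exp k := by
    rw [hxX]
    simp only [pv]
    exact RatFunc.inftyValuation.X_zpow (ZMod 2) k
  rw [h2, ← WithZero.exp_zero, WithZero.exp_inj] at hinf
  rw [hxX, hinf, zpow_zero]

end N589LL
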