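import Pool.Agent.N589.LL.Tasks

/-!
# LL/02: the special vector of the Steinberg representation
-/

open scoped WithZero MatrixGroups
open OnePoint

noncomputable section

namespace N589LL

namespace TSpecial

variable {F : Type} [Field F] (v : Valuation F ℤᵐ⁰)

lemma mem_ball_coe (y : F) : ((y : OnePoint F) ∈ ballO v) ↔ v y ≤ 1 := by
  constructor
  · rintro ⟨z, hz, hz'⟩
    rw [OnePoint.coe_eq_coe] at hz
    rwa [hz]
  · intro h
    exact ⟨y, rfl, h⟩

lemma infty_not_mem : (∞ : OnePoint F) ∉ ballO v := by
  rintro ⟨z, hz, -⟩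
  exact OnePoint.infty_ne_coe z hz

lemma indO_coe_of_le {y : F} (h : v y ≤ 1) : indO v (y : OnePoint F) = 1 := by
  rw [indO, if_pos ((mem_ball_coe v y).2 h)]

lemma indO_coe_of_lt {y : F} (h : 1 < v y) : indO v (y : OnePoint F) = 0 := by
  rw [indO, if_neg]
  rw [mem_ball_coe v y]
  exact not_le.2 h

lemma indO_infty : indO v (∞ : OnePoint F) = 0 := by
  rw [indO, if_neg (infty_not_mem v)]

lemma StRep_s0 (g : GL (Fin 2) F) : StRep v g (s0 v) =
    Submodule.Quotient.mk ⟨P1rep F g (indO v), P1smooth_stable v g (indO_smooth v)⟩ := rfl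

lemma StRep_s0_of_eq {g : GL (Fin 2) F} (h : P1rep F g (indO v) = indO v) :
    StRep v g (s0 v) = s0 v := by
  rw [StRep_s0, s0]
  congr 1
  exact Subtype.ext h

end TSpecial

open TSpecial in
theorem TaskSpecial_proof : TaskSpecial := by
  classical
  intro F _ v ϖ hL
  have hϖ0 : (ϖ : F) ≠ 0 := ϖ.ne_zero
  have hexp : (WithZero.exp (-1 : ℤ) : ℤᵐ⁰) < 1 := by
    rw [← WithZero.exp_zero, WithZero.exp_lt_exp]; norm_num
  have hϖ1 : v (ϖ : F) < 1 := by rw [hL.1]; exact hexp
  refine ⟨⟨?_, ?_, ?_, ?_⟩, ?_⟩
  · intro g hg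
    exact StRep_s0_of_eq v (Iw_indO v hg)
  · intro z
    apply StRep_s0_of_eq
    funext x
    change indO v ((sca z)⁻¹ • x) = indO v x
    have : (sca z)⁻¹ • x = x := by
      rw [inv_smul_eq_iff]
      induction x using OnePoint.rec with
      | infty =>
        rw [smul_infty_eq_ite, if_pos]
        simp [sca, bor]
      | coe y =>
        rw [smul_some_eq_ite, if_neg]
        · simp [sca, bor]
        · simp [sca, bor]
    rw [this]
  · -- eta
    rw [StRep_s0, eq_neg_iff_add_eq_zero, s0, ← Submodule.Quotient.mk_add,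
      Submodule.Quotient.mk_eq_zero]
    refine ⟨1, fun x => ?_⟩
    rw [Submodule.coe_add, Pi.add_apply]
    change indO v ((eta ϖ)⁻¹ • x) + indO v x = 1
    induction x using OnePoint.rec with
    | infty =>
      rw [smul_infty_eq_ite, if_neg (by simp [eta])]
      rw [indO_infty, add_zero, indO_coe_of_le]
      simp [eta]
    | coe y =>
      rw [smul_some_eq_ite]
      have e10 : (eta ϖ)⁻¹ 1 0 = 1 := by simp [eta]
      have e11 : (eta ϖ)⁻¹ 1 1 = 0 := by simp [eta]
      have e00 : (eta ϖ)⁻¹ 0 0 = 0 := by simp [eta]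
      have e01 : (eta ϖ)⁻¹ 0 1 = (↑ϖ⁻¹ : F) := by simp [eta]
      rw [e10, e11, e00, e01]
      by_cases hy : y = 0
      · subst hy
        rw [if_pos (by ring), indO_infty, indO_coe_of_le v (by simp), zero_add]
      · rw [if_neg (by simpa using hy)]
        simp only [zero_mul, zero_add, one_mul, add_zero]
        by_cases h1 : v y ≤ 1
        · rw [indO_coe_of_le v h1, indO_coe_of_lt, zero_add]
          rw [map_div₀, Units.val_inv_eq_inv_val, map_inv₀]
          have hvy : 0 < v y := zero_lt_iff.2 ((Valuation.ne_zero_iff v).2 hy)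
          have hvp : 0 < v (ϖ : F) := zero_lt_iff.2 ((Valuation.ne_zero_iff v).2 hϖ0)
          rw [lt_div_iff₀ hvy, one_mul]
          refine lt_of_le_of_lt h1 ?_
          rwa [one_lt_inv₀ hvp]
        · rw [not_le] at h1
          rw [indO_coe_of_lt v h1, indO_coe_of_le, add_zero]
          rw [map_div₀, Units.val_inv_eq_inv_val, map_inv₀, hL.1]
          have hvy : 0 < v y := lt_trans zero_lt_one h1
          rw [div_le_iff₀ hvy, one_mul, ← WithZero.exp_neg, neg_neg]
          -- v y > 1 → v y ≥ exp 1
          have hy0 : v y ≠ 0 := ne_of_gt hvy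
          rw [← WithZero.exp_log hy0] at h1 ⊢
          rw [← WithZero.exp_zero, WithZero.exp_lt_exp] at h1
          rw [WithZero.exp_le_exp]
          omega
  · -- sum
    rw [StRep_s0, StRep_s0, s0, ← Submodule.Quotient.mk_add, ← Submodule.Quotient.mk_add,
      Submodule.Quotient.mk_eq_zero]
    refine ⟨2, fun x => ?_⟩
    rw [Submodule.coe_add, Submodule.coe_add, Pi.add_apply, Pi.add_apply]
    change indO v x + indO v ((wm : GL (Fin 2) F)⁻¹ • x) + indO v ((lwr 1 : GL (Fin 2) F)⁻¹ • x) = 2
    have w10 : (wm : GL (Fin 2) F)⁻¹ 1 0 = 1 := by simp [wm]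
    have w11 : (wm : GL (Fin 2) F)⁻¹ 1 1 = 0 := by simp [wm]
    have w00 : (wm : GL (Fin 2) F)⁻¹ 0 0 = 0 := by simp [wm]
    have w01 : (wm : GL (Fin 2) F)⁻¹ 0 1 = 1 := by simp [wm]
    have l10 : (lwr 1 : GL (Fin 2) F)⁻¹ 1 0 = -1 := by simp [lwr]
    have l11 : (lwr 1 : GL (Fin 2) F)⁻¹ 1 1 = 1 := by simp [lwr]
    have l00 : (lwr 1 : GL (Fin 2) F)⁻¹ 0 0 = 1 := by simp [lwr]
    have l01 : (lwr 1 : GL (Fin 2) F)⁻¹ 0 1 = 0 := by simp [lwr]
    induction x using OnePoint.rec with
    | infty =>
      rw [smul_infty_eq_ite, smul_infty_eq_ite, w10, w00, l10, l00, if_neg one_ne_zero,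
        if_neg (by simp), indO_infty, indO_coe_of_le v (by simp), indO_coe_of_le v (by simp)]
      norm_num
    | coe y =>
      rw [smul_some_eq_ite, smul_some_eq_ite, w10, w11, w00, w01, l10, l11, l00, l01]
      simp only [one_mul, add_zero, zero_mul, zero_add]
      by_cases h1 : v y ≤ 1
      · rw [indO_coe_of_le v h1]
        rcases hL.2 y h1 with h2 | h2
        · -- v y < 1
          have hd : v (-1 * y + 1) = 1 := by
            have : v (-1 * y) < v (1 : F) := by
              rw [map_mul, Valuation.map_neg, map_one, one_mul]; exact h2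
            rw [Valuation.map_add_eq_of_lt_right v this, map_one]
          have hd0 : -1 * y + 1 ≠ 0 := by
            intro h; rw [h, map_zero] at hd; exact zero_ne_one hd
          rw [if_neg hd0, indO_coe_of_le v (y := y / (-1 * y + 1)) (by
            rw [map_div₀, hd, div_one]; exact h1)]
          by_cases hy : y = 0
          · rw [if_pos hy, indO_infty]; norm_num
          · rw [if_neg hy, indO_coe_of_lt]
            · norm_num
            · have hvy : 0 < v y := zero_lt_iff.2 ((Valuation.ne_zero_iff v).2 hy)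
              rw [map_div₀, map_one, lt_div_iff₀ hvy, one_mul]; exact h2
        · -- v (y - 1) < 1
          have hvy : v y = 1 := by
            have e : y = (y - 1) + 1 := by ring
            rw [e]
            have : v (y - 1) < v (1 : F) := by rw [map_one]; exact h2
            rw [Valuation.map_add_eq_of_lt_right v this, map_one]
          have hy : y ≠ 0 := by intro h; rw [h, map_zero] at hvy; exact zero_ne_one hvy
          rw [if_neg hy, indO_coe_of_le v (y := 1 / y) (by rw [map_div₀, hvy]; simp)]
          by_cases hd : -1 * y + 1 = 0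
          · rw [if_pos hd, indO_infty]; norm_num
          · rw [if_neg hd, indO_coe_of_lt]
            · norm_num
            · have hv : v (-1 * y + 1) < 1 := by
                have : -1 * y + 1 = -(y - 1) := by ring
                rw [this, Valuation.map_neg]; exact h2
              have hvd : 0 < v (-1 * y + 1) := zero_lt_iff.2 ((Valuation.ne_zero_iff v).2 hd)
              rw [map_div₀, hvy, lt_div_iff₀ hvd, one_mul]; exact hv
      · rw [not_le] at h1
        have hvy : 0 < v y := lt_trans zero_lt_one h1
        have hy : y ≠ 0 := by intro h; rw [h, map_zero] at hvy; exact lt_irrefl _ hvy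
        have hd : v (-1 * y + 1) = v y := by
          have : v (1 : F) < v (-1 * y) := by
            rw [map_mul, Valuation.map_neg, map_one, one_mul]; exact h1
          rw [Valuation.map_add_eq_of_lt_left v this, map_mul, Valuation.map_neg, map_one, one_mul]
        have hd0 : -1 * y + 1 ≠ 0 := by
          intro h; rw [h, map_zero] at hd; exact (ne_of_gt hvy) hd.symm
        rw [indO_coe_of_lt v h1, if_neg hy, if_neg hd0, indO_coe_of_le v (y := 1 / y) (by
          rw [map_div₀, map_one, div_le_iff₀ hvy, one_mul]; exact h1.le),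
          indO_coe_of_le v (y := y / (-1 * y + 1)) (by
            rw [map_div₀, hd, div_self (ne_of_gt hvy)])]
        norm_num
  · -- s0 ≠ 0
    intro h
    rw [s0, Submodule.Quotient.mk_eq_zero] at h
    obtain ⟨c, hc⟩ := h
    have h1 : indO v (∞ : OnePoint F) = c := hc _
    have h2 : indO v ((0 : F) : OnePoint F) = c := hc _
    rw [indO_infty] at h1
    rw [indO_coe_of_le v (by simp), ← h1] at h2
    exact one_ne_zero h2

end N589LL
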